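import Pool.Agent.W133.DQ.StB

set_option autoImplicit false

open scoped ContDiff
open Set Filter Topology

namespace Pool.Agent.W351.DQ

open Pool.Agent.W133.DQ

theorem nb_mono {r : ℕ} {u : P2 → ℝ} {a b : ℝ} (h : NB r u a) (hab : a ≤ b) : NB r u b :=
  fun p => (h p).trans hab

theorem star_smooth {u v : P2 → ℝ} (hu : ContDiff ℝ ∞ u) (hv : ContDiff ℝ ∞ v) :
    ContDiff ℝ ∞ (star v u) := by
  unfold Pool.Agent.W133.DQ.star
  exact hu.add (hv.comp ((contDiff_fst.add hu).prodMk contDiff_snd))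

theorem star_supp {u v : P2 → ℝ} (hu : SuppBox 1 1 u) (hv : SuppBox 1 1 v) :
    SuppBox 1 1 (star v u) := by
  intro p hp
  unfold Pool.Agent.W133.DQ.star
  rw [hu p hp, add_zero, zero_add]
  exact hv p hp

/-- bounds for the derivatives of a smooth function with compact support -/
theorem nb_exists {v : P2 → ℝ} (hv : ContDiff ℝ ∞ v) (hs : SuppBox 1 1 v) (j : ℕ) :
    ∃ φ : ℝ, 0 ≤ φ ∧ NB j v φ := by
  have hc : HasCompactSupport v := by
    refine HasCompactSupport.intro (isCompact_closedBall (0 : P2) 1) ?_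
    intro p hp
    apply hs
    rw [Metric.mem_closedBall, dist_zero_right, not_le, Prod.norm_def, lt_max_iff] at hp
    rcases hp with h | h
    · left
      rw [Real.norm_eq_abs] at h
      exact h.le
    · right
      rw [Real.norm_eq_abs] at h
      exact h.le
  have h1 : HasCompactSupport (iteratedFDeriv ℝ j v) := hc.iteratedFDeriv j
  have h2 : Continuous (iteratedFDeriv ℝ j v) :=
    hv.continuous_iteratedFDeriv (by exact_mod_cast le_top)
  obtain ⟨C, hC⟩ := h2.bounded_above_of_compact_support h1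
  exact ⟨C, (norm_nonneg _).trans (hC 0), hC⟩

theorem nb_low (hPO : S_POIN) {u : P2 → ℝ} (hu : ContDiff ℝ ∞ u) (hs : SuppBox 1 1 u) {E : ℝ}
    (hE : 0 ≤ E) (h4 : NB 4 u E) : ∀ j : ℕ, j ≤ 4 → NB j u (16 * E) := by
  have h3 : NB 3 u (2 * E) := hPO.1 u 1 3 E hu hs h4
  have h2 : NB 2 u (2 * (2 * E)) := hPO.1 u 1 2 _ hu hs h3
  have h1 : NB 1 u (2 * (2 * (2 * E))) := hPO.1 u 1 1 _ hu hs h2
  have h0 : NB 0 u (2 * (2 * (2 * (2 * E)))) := hPO.1 u 1 0 _ hu hs h1
  intro j hj
  interval_cases j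
  · exact nb_mono h0 (by linarith)
  · exact nb_mono h1 (by linarith)
  · exact nb_mono h2 (by linarith)
  · exact nb_mono h3 (by linarith)
  · exact nb_mono h4 (by linarith)

theorem nb_zero {u : P2 → ℝ} {b : ℝ} (h : NB 0 u b) (p : P2) : |u p| ≤ b := by
  have := h p
  rwa [norm_iteratedFDeriv_zero, Real.norm_eq_abs] at this

theorem nb_of_zero {u : P2 → ℝ} {b : ℝ} (h : ∀ p, |u p| ≤ b) : NB 0 u b := by
  intro p
  rw [norm_iteratedFDeriv_zero, Real.norm_eq_abs]
  exact h p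

/-- bounds for `star v u`, each order -/
theorem star_nb (hEC : S_EC0) {v : P2 → ℝ} (hv : ContDiff ℝ ∞ v) (hs : SuppBox 1 1 v) (m : ℝ)
    (hm : 0 ≤ m) (j : ℕ) : ∃ m' : ℝ, 0 ≤ m' ∧ ∀ u : P2 → ℝ, ContDiff ℝ ∞ u →
    (∀ i : ℕ, i ≤ j → NB i u m) → NB j (star v u) m' := by
  rcases Nat.eq_zero_or_pos j with h0 | hj
  · subst h0
    obtain ⟨φ, hφ, hvφ⟩ := nb_exists hv hs 0
    refine ⟨m + φ, by positivity, fun u hu hum => ?_⟩
    apply nb_of_zero
    intro p
    unfold Pool.Agent.W133.DQ.star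
    refine (abs_add_le _ _).trans ?_
    exact add_le_add (nb_zero (hum 0 le_rfl) p) (nb_zero hvφ _)
  · obtain ⟨C, hC, hec⟩ := hEC j hj
    choose φ hφ hvφ using fun i => nb_exists hv hs i
    set a : ℝ := m + ∑ i ∈ Finset.range (j + 1), φ i with ha
    have hsum : ∀ i, i ≤ j → φ i ≤ ∑ i ∈ Finset.range (j + 1), φ i := fun i hi =>
      Finset.single_le_sum (f := φ) (fun k _ => hφ k) (Finset.mem_range.2 (by omega))
    have hpos : 0 ≤ ∑ i ∈ Finset.range (j + 1), φ i := Finset.sum_nonneg fun k _ => hφ k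
    have ha0 : 0 ≤ a := by positivity
    have hva : ∀ i, i ≤ j → NB i v a := fun i hi =>
      nb_mono (hvφ i) ((hsum i hi).trans (by rw [ha]; linarith))
    refine ⟨(1 + a) * a + (1 + a) ^ j * a + C * a ^ 2 * (1 + a) ^ j, by positivity,
      fun u hu hum => ?_⟩
    have hua : ∀ i, i ≤ j → NB i u a := fun i hi =>
      nb_mono (hum i hi) (by rw [ha]; linarith)
    exact hec v u hv hu a a a a a ha0 ha0 ha0 ha0 ha0
      (fun i _ h2 => ⟨hva i h2.le, hua i h2.le⟩) (hva 1 hj) (hua 1 hj) (hva j le_rfl)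
      (hua j le_rfl)

/-- bounds for `star v u`, all orders less than `r` -/
theorem star_nbs (hEC : S_EC0) {v : P2 → ℝ} (hv : ContDiff ℝ ∞ v) (hs : SuppBox 1 1 v) (m : ℝ)
    (hm : 0 ≤ m) (r : ℕ) : ∃ m' : ℝ, 0 ≤ m' ∧ ∀ u : P2 → ℝ, ContDiff ℝ ∞ u →
    (∀ i : ℕ, i < r → NB i u m) → ∀ j : ℕ, j < r → NB j (star v u) m' := by
  choose f hf hf2 using fun j => star_nb hEC hv hs m hm j
  refine ⟨∑ i ∈ Finset.range r, f i, Finset.sum_nonneg fun k _ => hf k, ?_⟩
  intro u hu hum j hj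
  refine nb_mono (hf2 j u hu fun i hi => hum i (by omega)) ?_
  exact Finset.single_le_sum (f := f) (fun k _ => hf k) (Finset.mem_range.2 hj)

theorem fix (hPSI : S_PSI) (hSCH : S_SCHAU) (hEC : S_EC0) (hPO : S_POIN) (hGU : S_GU)
    (hNV : S_NV) : S_FIX := by
  intro L hL
  obtain ⟨A, hA, ε₀, hε₀, p1, p2, p3, ⟨Cl, p4⟩, p5⟩ := hPSI
  obtain ⟨ε₁, hε₁, p6⟩ := p5 L hL
  obtain ⟨C4, hC4, hec4⟩ := hEC 4 (by norm_num)
  -- the radius
  set E : ℝ := min (min (ε₀ / 4) (ε₁ / 4)) (min (1 / 256) (1 / (1000 * (C4 + 1)))) with hE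
  have hEpos : 0 < E := by
    rw [hE]
    refine lt_min (lt_min (by positivity) (by positivity)) (lt_min (by norm_num) ?_)
    positivity
  have hE0 : 2 * E ≤ ε₀ := by
    have : E ≤ ε₀ / 4 := (min_le_left _ _).trans (min_le_left _ _)
    linarith
  have hE1 : 2 * E ≤ ε₁ := by
    have : E ≤ ε₁ / 4 := (min_le_left _ _).trans (min_le_right _ _)
    linarith
  have hE2 : E ≤ 1 / 256 := (min_le_right _ _).trans (min_le_left _ _)
  have hE3 : E ≤ 1 / (1000 * (C4 + 1)) := (min_le_right _ _).trans (min_le_right _ _)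
  have hE4 : 1000 * (C4 * E) ≤ 1 := by
    have h1 : E * (1000 * (C4 + 1)) ≤ 1 := by
      rwa [le_div_iff₀ (by positivity)] at hE3
    nlinarith
  refine ⟨E / 4, by positivity, ?_⟩
  intro v hv hvs hv4 P hP hPv
  have hvlow : ∀ j : ℕ, j ≤ 4 → NB j v (16 * (E / 4)) :=
    nb_low hPO hv hvs (by positivity) hv4
  -- the estimate for the fourth derivative of star v u
  have hstar4 : ∀ u : P2 → ℝ, ContDiff ℝ ∞ u → SuppBox 1 1 u → NB 4 u E →
      NB 4 (star v u) (2 * E) := by
    intro u hu hus hu4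
    have hul := nb_low hPO hu hus hEpos.le hu4
    have h := hec4 v u hv hu (16 * E) (16 * E) (16 * E) (E / 4) E (by positivity) (by positivity)
      (by positivity) (by positivity) (by positivity)
      (fun j _ h2 => ⟨nb_mono (hvlow j (by omega)) (by linarith), hul j (by omega)⟩)
      (nb_mono (hvlow 1 (by norm_num)) (by linarith)) (hul 1 (by norm_num)) hv4 hu4
    refine nb_mono h ?_
    have e1 : (1 + 16 * E) ≤ 17 / 16 := by linarith
    have e2 : (1 + 16 * E) ^ 4 ≤ (17 / 16) ^ 4 := pow_le_pow_left₀ (by positivity) e1 4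
    have e3 : (1 + 16 * E) * E ≤ 17 / 16 * E := mul_le_mul_of_nonneg_right e1 hEpos.le
    have e4 : (1 + 16 * E) ^ 4 * (E / 4) ≤ (17 / 16) ^ 4 * (E / 4) :=
      mul_le_mul_of_nonneg_right e2 (by positivity)
    have e5 : C4 * (16 * E) ^ 2 * (1 + 16 * E) ^ 4 ≤ C4 * (16 * E) ^ 2 * (17 / 16) ^ 4 :=
      mul_le_mul_of_nonneg_left e2 (by positivity)
    have e6 : C4 * (16 * E) ^ 2 * (17 / 16) ^ 4 ≤ 1 / 2 * E := by
      have : C4 * (16 * E) ^ 2 * (17 / 16) ^ 4 = (256 * (17 / 16) ^ 4 / 1000) *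
          (1000 * (C4 * E)) * E := by ring
      rw [this]
      have h7 : (256 * (17 / 16) ^ 4 / 1000) * (1000 * (C4 * E)) ≤
          (256 * (17 / 16) ^ 4 / 1000) * 1 :=
        mul_le_mul_of_nonneg_left hE4 (by norm_num)
      have h8 := mul_le_mul_of_nonneg_right h7 hEpos.le
      refine h8.trans ?_
      norm_num
      linarith
    norm_num at e4
    linarith
  -- the choice of the bounds
  have hG : ∀ (r : ℕ) (m : ℝ), ∃ G : ℝ, 0 ≤ G ∧ (4 < r → 0 ≤ m → ∀ u : P2 → ℝ,
      ContDiff ℝ ∞ u → SuppBox 1 1 u → NB 4 u E → (∀ j : ℕ, j < r → NB j u m) → NB r u G →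
      NB r (Psi A (star v u)) G) := by
    intro r m
    by_cases hr : 4 < r
    swap
    · exact ⟨0, le_rfl, fun h => absurd h hr⟩
    by_cases hm : 0 ≤ m
    swap
    · exact ⟨0, le_rfl, fun _ h => absurd h hm⟩
    obtain ⟨m', hm', hstar⟩ := star_nbs hEC hv hvs m hm r
    obtain ⟨c, hc, hp3⟩ := p3 r hr m'
    obtain ⟨C, hC, hec⟩ := hEC r (by omega)
    choose φ hφ hvφ using fun i => nb_exists hv hvs i
    set a : ℝ := m + ∑ i ∈ Finset.range (r + 1), φ i with ha
    have hsum : ∀ i, i ≤ r → φ i ≤ ∑ i ∈ Finset.range (r + 1), φ i := fun i hi =>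
      Finset.single_le_sum (f := φ) (fun k _ => hφ k) (Finset.mem_range.2 (by omega))
    have hpos : 0 ≤ ∑ i ∈ Finset.range (r + 1), φ i := Finset.sum_nonneg fun k _ => hφ k
    have ha0 : 0 ≤ a := by positivity
    have hva : ∀ i, i ≤ r → NB i v a := fun i hi =>
      nb_mono (hvφ i) ((hsum i hi).trans (by rw [ha]; linarith))
    set c' : ℝ := (1 + 16 * E) ^ r * φ r + C * a ^ 2 * (1 + a) ^ r with hc'
    have hc'0 : 0 ≤ c' := by
      have := hφ r
      positivity
    set G : ℝ := 2 * (c' + c) with hGdef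
    have hG0 : 0 ≤ G := by positivity
    refine ⟨G, hG0, fun _ _ u hu hus hu4 hum hur => ?_⟩
    have hul := nb_low hPO hu hus hEpos.le hu4
    have h := hec v u hv hu a (16 * E) (16 * E) (φ r) G ha0 (by positivity) (by positivity)
      (hφ r) hG0
      (fun j _ h2 => ⟨hva j h2.le, nb_mono (hum j h2) (by rw [ha]; linarith)⟩)
      (nb_mono (hvlow 1 (by norm_num)) (by linarith)) (hul 1 (by norm_num)) (hvφ r) hur
    have h5 : NB r (star v u) (2 * G + c') := by
      refine nb_mono h ?_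
      have : (1 + 16 * E) * G ≤ 2 * G := mul_le_mul_of_nonneg_right (by linarith) hG0
      rw [hc']
      linarith
    have h6 := hp3 (star v u) (2 * G + c') (star_smooth hu hv) (star_supp hus hvs)
      (nb_mono (hstar4 u hu hus hu4) hE0) (hstar u hu hum) (by positivity) h5
    refine nb_mono h6 ?_
    rw [hGdef]
    linarith
  choose G hG0 hG1 using hG
  -- the sequence
  let step : ℕ → ℝ → ℝ := fun r s => if r ≤ 4 then E else G r s
  let S : ℕ → ℝ := fun r => Nat.rec (16 * E) (fun r s => s + step r s) r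
  have hS0 : S 0 = 16 * E := rfl
  have hS1 : ∀ r, S (r + 1) = S r + step r (S r) := fun r => rfl
  let eps : ℕ → ℝ := fun r => step r (S r)
  have hstep : ∀ r s, 0 ≤ step r s := by
    intro r s
    simp only [step]
    split_ifs
    · exact hEpos.le
    · exact hG0 r s
  have heps0 : ∀ r, 0 ≤ eps r := fun r => hstep r _
  have hSmono : Monotone S := by
    refine monotone_nat_of_le_succ fun r => ?_
    rw [hS1]
    linarith [hstep r (S r)]
  have hSE : ∀ r, 16 * E ≤ S r := fun r => by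
    rw [← hS0]
    exact hSmono (Nat.zero_le r)
  have hSeps : ∀ j r, j < r → eps j ≤ S r := by
    intro j r hjr
    have h1 : S (j + 1) ≤ S r := hSmono hjr
    rw [hS1] at h1
    have h2 := hSE j
    show step j (S j) ≤ S r
    linarith
  have heps4 : eps 4 = E := by simp [eps, step]
  have hepsr : ∀ r, 4 < r → eps r = G r (S r) := by
    intro r hr
    simp only [eps, step]
    rw [if_neg (by omega)]
  -- elements of KK
  have hKK4 : ∀ u ∈ KK eps, NB 4 u E := by
    rintro u ⟨_, _, hu3⟩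
    have := hu3 4 le_rfl
    rwa [heps4] at this
  have hmaps : ∀ u ∈ KK eps, Psi A (star v u) ∈ KK eps := by
    intro u hu
    have hu4 := hKK4 u hu
    obtain ⟨hu1, hu2, hu3⟩ := hu
    have hs4 := hstar4 u hu1 hu2 hu4
    obtain ⟨q1, q2⟩ := p1 (star v u) (star_smooth hu1 hv) (star_supp hu2 hvs) (nb_mono hs4 hE0)
    refine ⟨q1, q2, fun r hr => ?_⟩
    rcases Nat.lt_or_ge 4 r with h | h
    · rw [hepsr r h]
      refine hG1 r (S r) h (by linarith [hSE r]) u hu1 hu2 hu4 ?_ ?_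
      · intro j hj
        rcases Nat.lt_or_ge 4 j with h' | h'
        · exact nb_mono (hu3 j h'.le) (hSeps j r hj)
        · exact nb_mono (nb_low hPO hu1 hu2 hEpos.le hu4 j h') (hSE r)
      · have := hu3 r hr
        rwa [hepsr r h] at this
    · have : r = 4 := by omega
      subst this
      rw [heps4]
      refine nb_mono (p2 (star v u) (2 * E) (star_smooth hu1 hv) (star_supp hu2 hvs)
        (by positivity) hE0 hs4) (by linarith)
  have hvdiff : Differentiable ℝ v := hv.differentiable (by simp)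
  have hvlip : ∀ (x x' y : ℝ), |v (x, y) - v (x', y)| ≤ |x - x'| := by
    intro x x' y
    have hf : ∀ p : P2, ‖fderiv ℝ v p‖ ≤ 1 := by
      intro p
      have h1 := hvlow 1 (by norm_num) p
      rw [norm_iteratedFDeriv_one] at h1
      linarith
    have := (convex_univ : Convex ℝ (Set.univ : Set P2)).norm_image_sub_le_of_norm_fderiv_le
      (f := v) (C := 1) (fun p _ => hvdiff p) (fun p _ => hf p) (Set.mem_univ (x', y))
      (Set.mem_univ (x, y))
    rw [Real.norm_eq_abs, one_mul] at this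
    refine this.trans ?_
    rw [Prod.mk_sub_mk, sub_self, Prod.norm_def]
    simp
  have hlip : ∃ C : ℝ, ∀ u ∈ KK eps, ∀ w ∈ KK eps, ∀ d : ℝ, (∀ p, |u p - w p| ≤ d) →
      ∀ p, |Psi A (star v u) p - Psi A (star v w) p| ≤ C * d := by
    refine ⟨Cl * 2, ?_⟩
    intro u hu w hw d hd p
    have hu4 := hKK4 u hu
    have hw4 := hKK4 w hw
    obtain ⟨hu1, hu2, hu3⟩ := hu
    obtain ⟨hw1, hw2, hw3⟩ := hw
    have h := p4 (star v u) (star v w) (star_smooth hu1 hv) (star_smooth hw1 hv)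
      (star_supp hu2 hvs) (star_supp hw2 hvs) (nb_mono (hstar4 u hu1 hu2 hu4) hE0)
      (nb_mono (hstar4 w hw1 hw2 hw4) hE0) (2 * d) ?_ p
    · rw [mul_assoc]
      exact h
    · intro q
      unfold Pool.Agent.W133.DQ.star
      have e1 := hd q
      have e2 := hvlip (q.1 + u q) (q.1 + w q) q.2
      have e3 : q.1 + u q - (q.1 + w q) = u q - w q := by ring
      rw [e3] at e2
      have e4 : u q + v (q.1 + u q, q.2) - (w q + v (q.1 + w q, q.2)) =
          (u q - w q) + (v (q.1 + u q, q.2) - v (q.1 + w q, q.2)) := by ring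
      rw [e4]
      refine (abs_add_le _ _).trans ?_
      linarith
  obtain ⟨u, hu, hfix⟩ := hSCH eps heps0 (fun u => Psi A (star v u)) hmaps hlip
  have hu4 := hKK4 u hu
  obtain ⟨hu1, hu2, hu3⟩ := hu
  have hfix' : Psi A (star v u) = u := hfix
  have hu11 : NB 1 u (1 / 2) := nb_mono (nb_low hPO hu1 hu2 hEpos.le hu4 1 (by norm_num))
    (by linarith)
  obtain ⟨f, hf, hfu⟩ := hGU u hu1 ⟨1, 1, hu2⟩ hu11
  have hPf : IsG (P * f) (star v u) := hNV.2.1 P f v u hPv hfu
  have h9 := p6 (star v u) (star_smooth hu1 hv) (star_supp hu2 hvs)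
    (nb_mono (hstar4 u hu1 hu2 hu4) hE1) (P * f) (LP.mul_mem hP hf) hPf f hf
    (by rw [hfix']; exact hfu)
  have h10 := hL P (LP_le_DC hP) f (LP_le_DC hf)
  linarith

end Pool.Agent.W351.DQ
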